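import Pool.Agent.helper31.IC.Eng

/-!
# IC-3: disjunctions of programs

At every point of the box one of several programs (with the same variables) asserts.  A leaf of the
tree names the program that is checked there.
-/

namespace Pool.Agent.helper31.IC

open Complex
open Pool.Agent.helper31.IA (Z Op get Asserts Small RealL InBox Cov T lo hi canSplit)

/-- subdivision tree, a leaf names a program -/
inductive TD where
  | l (k : Nat)
  | n (i : Nat) (a b : TD)
deriving Repr, Inhabited

/-- disjunctive coverage -/
def CovD (nd : Nat) (progs : List (List Op)) (box : List (Nat × Nat)) : Prop :=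
  ∀ (u : List ℝ) (x : List ℂ), InBox box u → x.length = nd → (∀ z ∈ x, ‖z‖ ≤ 1) →
    ∃ ops ∈ progs, Asserts ops (u.map (fun t : ℝ => (t : ℂ)) ++ x)

def nthC {α : Type} : List (List α → Bool) → Nat → List α → Bool
  | [], _ => fun _ => false
  | x :: _, 0 => x
  | _ :: t, n + 1 => nthC t n

def verifyD (O : Ops) (okBox : List (Nat × Nat) → Nat → Bool) (nd : Nat)
    (chks : List (List O.α → Bool)) : TD → List (Nat × Nat) → Bool
  | TD.l k, box => okBox box nd && nthC chks k (O.models box nd)
  | TD.n i a b, box => canSplit i box && verifyD O okBox nd chks a (lo i box) &&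
      verifyD O okBox nd chks b (hi i box)

theorem covD_of_cov {nd : Nat} {progs : List (List Op)} {ops : List Op} (h : ops ∈ progs)
    {box : List (Nat × Nat)} (hc : Cov nd ops box) : CovD nd progs box :=
  fun u x hu hx h1 => ⟨ops, h, hc u x hu hx h1⟩

private theorem d_split {box : List (Nat × Nat)} {u : List ℝ} (h : InBox box u) :
    ∀ i, canSplit i box = true → InBox (lo i box) u ∨ InBox (hi i box) u := by
  unfold InBox at h ⊢
  induction h with
  | nil =>
    intro i hi
    cases i <;> simp [canSplit] at hi
  | @cons b t bs ts hbt hrest ih =>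
    intro i hi
    cases i with
    | zero =>
      obtain ⟨c, h⟩ := b
      simp only [canSplit, Bool.and_eq_true] at hi
      obtain ⟨h1, h2⟩ := hi
      have h1' : 2 * (h / 2) = h := Nat.eq_of_beq_eq_true h1
      have h2' : h ≤ c := Nat.le_of_ble_eq_true h2
      obtain ⟨k, hk⟩ : ∃ k, k = h / 2 := ⟨_, rfl⟩
      have hlo : lo 0 ((c, h) :: bs) = (c - k, k) :: bs := by rw [hk]; rfl
      have hhi : IA.hi 0 ((c, h) :: bs) = (c + k, k) :: bs := by rw [hk]; rfl
      rw [hlo, hhi]
      rw [← hk] at h1'
      have hkc : k ≤ c := by omega
      have e1 : (h : ℝ) = 2 * k := by exact_mod_cast h1'.symm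
      simp only at hbt
      rw [e1] at hbt
      have h3 := abs_le.1 hbt
      have e2 : (2 * (k : ℝ)) / 2 ^ 40 = 2 * ((k : ℝ) / 2 ^ 40) := by ring
      rw [e2] at h3
      rcases le_total t ((c : ℝ) / 2 ^ 40) with h4 | h4
      · left
        refine List.Forall₂.cons ?_ hrest
        simp only
        rw [Nat.cast_sub hkc, sub_div, abs_le]
        constructor <;> linarith [h3.1, h3.2]
      · right
        refine List.Forall₂.cons ?_ hrest
        simp only
        rw [Nat.cast_add, add_div, abs_le]
        constructor <;> linarith [h3.1, h3.2]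
    | succ n =>
      have hi' : canSplit n bs = true := hi
      rcases ih n hi' with h1 | h1
      · left
        exact List.Forall₂.cons hbt h1
      · right
        exact List.Forall₂.cons hbt h1

theorem covD_split {nd : Nat} {progs : List (List Op)} {box : List (Nat × Nat)} (i : Nat)
    (hs : canSplit i box = true) (h1 : CovD nd progs (lo i box)) (h2 : CovD nd progs (hi i box)) :
    CovD nd progs box := by
  intro u x hu hx hx1
  rcases d_split hu i hs with h | h
  · exact h1 u x h hx hx1
  · exact h2 u x h hx hx1

private theorem d_nthC {O : Ops} {nr : Nat} {m : List O.α} {progs : List (List Op)}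
    {chks : List (List O.α → Bool)}
    (hchk : List.Forall₂ (fun (ops : List Op) (chk : List O.α → Bool) =>
      ∀ m, chk m = true → runG O nr ops m = true) progs chks) :
    ∀ k, nthC chks k m = true → ∃ ops ∈ progs, runG O nr ops m = true := by
  induction hchk with
  | nil =>
    intro k hk
    exact absurd hk Bool.false_ne_true
  | @cons ops chk ps cs h0 _ ih =>
    intro k hk
    cases k with
    | zero => exact ⟨ops, List.mem_cons_self, h0 m hk⟩
    | succ n =>
      obtain ⟨o, ho, hr⟩ := ih n hk
      exact ⟨o, List.mem_cons_of_mem _ ho, hr⟩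

/-- **Main theorem.**  `chks` are compiled forms of the programs. -/
theorem covD_of_verifyD {O : Ops} (L : Laws O) {nr nd : Nat} {progs : List (List Op)}
    {chks : List (List O.α → Bool)}
    (hchk : List.Forall₂ (fun (ops : List Op) (chk : List O.α → Bool) =>
      ∀ m, chk m = true → runG O nr ops m = true) progs chks) :
    ∀ (t : TD) (box : List (Nat × Nat)), box.length = nr →
      verifyD O L.okBox nd chks t box = true → CovD nd progs box := by
  intro t
  induction t with
  | l k =>
    intro box hlen h
    have h' := (Bool.and_eq_true _ _).mp h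
    intro u x hu hx hs
    obtain ⟨ε, hε, hr, hm⟩ := L.models box nd u x h'.1 hu hx hs
    rw [hlen] at hr
    obtain ⟨ops, ho, hrun⟩ := d_nthC hchk k h'.2
    exact ⟨ops, ho, runG_sound L hε hr ops _ _ hm hrun⟩
  | n i a b iha ihb =>
    intro box hlen h
    simp only [verifyD, Bool.and_eq_true] at h
    exact covD_split i h.1.1
      (iha _ ((length_lo i box).trans hlen) h.1.2) (ihb _ ((length_hi i box).trans hlen) h.2)

end Pool.Agent.helper31.IC
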