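import Pool.Agent.helper31.IA.Run

/-!
# IC: programs over an abstract engine

`Ops` is the data of an engine (models of complex numbers with operations), `Laws` its soundness.
`runG` runs a program; `verifyG` verifies a compiled form `chk` of a program on a box along a
subdivision tree.  A compiled form is a function `List α → Bool` written out with `let`; it is
defined for arbitrary operations, so that its equality with `runG` is `rfl`.
-/

namespace Pool.Agent.helper31.IC

open Complex
open Pool.Agent.helper31.IA (Z Op get Asserts Small RealL InBox Cov T lo hi canSplit)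

structure Ops where
  α : Type
  cst : Z → α
  add : α → α → α
  sub : α → α → α
  mul : α → α → α
  scale : Z → α → α
  neg : α → α
  inv : α → α
  exp : α → α
  log : α → α
  ok : α → Bool
  isPos : Nat → α → Bool
  isLt : α → Nat → Bool
  bad : α
  /-- models of the variables of a box (centre, half width), then `nd` unit discs -/
  models : List (Nat × Nat) → Nat → List α

def nthG (O : Ops) : List O.α → Nat → O.α
  | [], _ => O.bad
  | x :: _, 0 => x
  | _ :: t, n + 1 => nthG O t n

/-- run a program; `nr` is the number of real noise symbols -/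
def runG (O : Ops) (nr : Nat) : List Op → List O.α → Bool
  | [], _ => true
  | Op.const z :: t, m => let v := O.cst z; O.ok v && runG O nr t (v :: m)
  | Op.add i j :: t, m => let v := O.add (nthG O m i) (nthG O m j); O.ok v && runG O nr t (v :: m)
  | Op.sub i j :: t, m => let v := O.sub (nthG O m i) (nthG O m j); O.ok v && runG O nr t (v :: m)
  | Op.mul i j :: t, m => let v := O.mul (nthG O m i) (nthG O m j); O.ok v && runG O nr t (v :: m)
  | Op.scale z i :: t, m => let v := O.scale z (nthG O m i); O.ok v && runG O nr t (v :: m)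
  | Op.neg i :: t, m => let v := O.neg (nthG O m i); O.ok v && runG O nr t (v :: m)
  | Op.inv i :: t, m => let v := O.inv (nthG O m i); O.ok v && runG O nr t (v :: m)
  | Op.exp i :: t, m => let v := O.exp (nthG O m i); O.ok v && runG O nr t (v :: m)
  | Op.log i :: t, m => let v := O.log (nthG O m i); O.ok v && runG O nr t (v :: m)
  | Op.pos i :: t, m => O.isPos nr (nthG O m i) && runG O nr t m
  | Op.lt i B :: t, m => O.isLt (nthG O m i) B && runG O nr t m

/-- soundness of an engine; `Mem ε x z`: the number `z` is in the model `x` for the values `ε` of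
the noise symbols (it may hold vacuously if `x` is invalid) -/
structure Laws (O : Ops) where
  Mem : List ℂ → O.α → ℂ → Prop
  cst : ∀ {ε : List ℂ}, Small ε → ∀ z : Z, O.ok (O.cst z) = true → Mem ε (O.cst z) z.val
  add : ∀ {ε : List ℂ}, Small ε → ∀ {x y : O.α} {u v : ℂ}, Mem ε x u → Mem ε y v →
    O.ok (O.add x y) = true → Mem ε (O.add x y) (u + v)
  sub : ∀ {ε : List ℂ}, Small ε → ∀ {x y : O.α} {u v : ℂ}, Mem ε x u → Mem ε y v →
    O.ok (O.sub x y) = true → Mem ε (O.sub x y) (u - v)
  mul : ∀ {ε : List ℂ}, Small ε → ∀ {x y : O.α} {u v : ℂ}, Mem ε x u → Mem ε y v →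
    O.ok (O.mul x y) = true → Mem ε (O.mul x y) (u * v)
  scale : ∀ {ε : List ℂ}, Small ε → ∀ (z : Z) {x : O.α} {u : ℂ}, Mem ε x u →
    O.ok (O.scale z x) = true → Mem ε (O.scale z x) (z.val * u)
  neg : ∀ {ε : List ℂ}, Small ε → ∀ {x : O.α} {u : ℂ}, Mem ε x u →
    O.ok (O.neg x) = true → Mem ε (O.neg x) (-u)
  inv : ∀ {ε : List ℂ}, Small ε → ∀ {x : O.α} {u : ℂ}, Mem ε x u →
    O.ok (O.inv x) = true → u ≠ 0 ∧ Mem ε (O.inv x) u⁻¹
  exp : ∀ {ε : List ℂ}, Small ε → ∀ {x : O.α} {u : ℂ}, Mem ε x u →
    O.ok (O.exp x) = true → Mem ε (O.exp x) (Complex.exp u)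
  log : ∀ {ε : List ℂ}, Small ε → ∀ {x : O.α} {u : ℂ}, Mem ε x u →
    O.ok (O.log x) = true → u ∈ slitPlane ∧ Mem ε (O.log x) (Complex.log u)
  isPos : ∀ {nr : Nat} {ε : List ℂ}, Small ε → RealL nr ε → ∀ {x : O.α} {u : ℂ}, Mem ε x u →
    O.isPos nr x = true → 0 < u.re
  isLt : ∀ {ε : List ℂ}, Small ε → ∀ {x : O.α} {u : ℂ} {B : Nat}, Mem ε x u →
    O.isLt x B = true → ‖u‖ < (B : ℝ) / 2 ^ 40
  bad : ∀ (ε : List ℂ) (z : ℂ), Mem ε O.bad z
  /-- the variables of a box; `1 ≤ fuel`-type restrictions (number of symbols, size) are in `okBox` -/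
  okBox : List (Nat × Nat) → Nat → Bool
  models : ∀ (box : List (Nat × Nat)) (nd : Nat) (u : List ℝ) (x : List ℂ), okBox box nd = true →
    InBox box u → x.length = nd → (∀ z ∈ x, ‖z‖ ≤ 1) →
    ∃ ε : List ℂ, Small ε ∧ RealL box.length ε ∧
      List.Forall₂ (Mem ε) (O.models box nd) (u.map (fun t : ℝ => (t : ℂ)) ++ x)

theorem mem_nthG {O : Ops} (L : Laws O) {ε : List ℂ} {m : List O.α} {v : List ℂ}
    (h : List.Forall₂ (L.Mem ε) m v) (i : Nat) : L.Mem ε (nthG O m i) (get v i) := by
  induction h generalizing i with
  | nil => exact L.bad ε _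
  | cons hxy _ ih =>
    cases i with
    | zero => exact hxy
    | succ n => exact ih n

/-- **Soundness of a run.** -/
theorem runG_sound {O : Ops} (L : Laws O) {nr : Nat} {ε : List ℂ} (hε : Small ε)
    (hr : RealL nr ε) : ∀ (ops : List Op) (m : List O.α) (v : List ℂ),
      List.Forall₂ (L.Mem ε) m v → runG O nr ops m = true → Asserts ops v := by
  intro ops
  induction ops with
  | nil =>
    intro m v _ _
    trivial
  | cons op t ih =>
    intro m v hm h
    cases op with
    | const z =>
      intro w hw
      subst hw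
      have h' := (Bool.and_eq_true _ _).mp h
      exact ih _ _ (List.Forall₂.cons (L.cst hε z h'.1) hm) h'.2
    | add i j =>
      intro w hw
      subst hw
      have h' := (Bool.and_eq_true _ _).mp h
      exact ih _ _ (List.Forall₂.cons (L.add hε (mem_nthG L hm i) (mem_nthG L hm j) h'.1) hm) h'.2
    | sub i j =>
      intro w hw
      subst hw
      have h' := (Bool.and_eq_true _ _).mp h
      exact ih _ _ (List.Forall₂.cons (L.sub hε (mem_nthG L hm i) (mem_nthG L hm j) h'.1) hm) h'.2
    | mul i j =>
      intro w hw
      subst hw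
      have h' := (Bool.and_eq_true _ _).mp h
      exact ih _ _ (List.Forall₂.cons (L.mul hε (mem_nthG L hm i) (mem_nthG L hm j) h'.1) hm) h'.2
    | scale z i =>
      intro w hw
      subst hw
      have h' := (Bool.and_eq_true _ _).mp h
      exact ih _ _ (List.Forall₂.cons (L.scale hε z (mem_nthG L hm i) h'.1) hm) h'.2
    | neg i =>
      intro w hw
      subst hw
      have h' := (Bool.and_eq_true _ _).mp h
      exact ih _ _ (List.Forall₂.cons (L.neg hε (mem_nthG L hm i) h'.1) hm) h'.2
    | inv i =>
      have h' := (Bool.and_eq_true _ _).mp h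
      have h1 := L.inv hε (mem_nthG L hm i) h'.1
      refine ⟨h1.1, ?_⟩
      intro w hw
      subst hw
      exact ih _ _ (List.Forall₂.cons h1.2 hm) h'.2
    | exp i =>
      intro w hw
      subst hw
      have h' := (Bool.and_eq_true _ _).mp h
      exact ih _ _ (List.Forall₂.cons (L.exp hε (mem_nthG L hm i) h'.1) hm) h'.2
    | log i =>
      have h' := (Bool.and_eq_true _ _).mp h
      have h1 := L.log hε (mem_nthG L hm i) h'.1
      refine ⟨h1.1, ?_⟩
      intro w hw
      subst hw
      exact ih _ _ (List.Forall₂.cons h1.2 hm) h'.2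
    | pos i =>
      have h' := (Bool.and_eq_true _ _).mp h
      exact ⟨L.isPos hε hr (mem_nthG L hm i) h'.1, ih _ _ hm h'.2⟩
    | lt i B =>
      have h' := (Bool.and_eq_true _ _).mp h
      exact ⟨L.isLt hε (mem_nthG L hm i) h'.1, ih _ _ hm h'.2⟩

/-- verification of a compiled program along a subdivision tree -/
def verifyG (O : Ops) (okBox : List (Nat × Nat) → Nat → Bool) (nd : Nat)
    (chk : List O.α → Bool) : T → List (Nat × Nat) → Bool
  | T.l, box => okBox box nd && chk (O.models box nd)
  | T.n i a b, box => canSplit i box && verifyG O okBox nd chk a (lo i box) &&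
      verifyG O okBox nd chk b (hi i box)

/-- the length of a box does not change by splitting -/
theorem length_lo (i : Nat) (box : List (Nat × Nat)) : (lo i box).length = box.length := by
  induction box generalizing i with
  | nil => cases i <;> rfl
  | cons b bs ih =>
    cases i with
    | zero => rfl
    | succ n => exact congrArg Nat.succ (ih n)

theorem length_hi (i : Nat) (box : List (Nat × Nat)) : (hi i box).length = box.length := by
  induction box generalizing i with
  | nil => cases i <;> rfl
  | cons b bs ih =>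
    cases i with
    | zero => rfl
    | succ n => exact congrArg Nat.succ (ih n)

/-- **Main theorem.**  `chk` is a compiled form of the program `ops` for `nr` real variables and
`nd` discs: `chk m = true → runG O nr ops m = true`. -/
theorem cov_of_verifyG {O : Ops} (L : Laws O) {nr nd : Nat} {ops : List Op}
    {chk : List O.α → Bool} (hchk : ∀ m, chk m = true → runG O nr ops m = true) :
    ∀ (t : T) (box : List (Nat × Nat)), box.length = nr →
      verifyG O L.okBox nd chk t box = true → Cov nd ops box := by
  intro t
  induction t with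
  | l =>
    intro box hlen h
    have h' := (Bool.and_eq_true _ _).mp h
    intro u x hu hx hs
    obtain ⟨ε, hε, hr, hm⟩ := L.models box nd u x h'.1 hu hx hs
    rw [hlen] at hr
    exact runG_sound L hε hr ops _ _ hm (hchk _ h'.2)
  | n i a b iha ihb =>
    intro box hlen h
    simp only [verifyG, Bool.and_eq_true] at h
    exact Pool.Agent.helper31.IA.cov_split i h.1.1
      (iha _ ((length_lo i box).trans hlen) h.1.2) (ihb _ ((length_hi i box).trans hlen) h.2)

end Pool.Agent.helper31.IC
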