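import Pool.Agent.helper31.IC.EngD

/-!
# IC-2: the engine of `IA` as an instance; proofs: helper41
-/

namespace Pool.Agent.helper31.IA.Q41

open Complex

theorem q_chk_ok {x : A} (h : x.chk = true) : x.ok = true := by
  unfold A.chk at h
  rw [Bool.and_eq_true] at h
  exact h.1

/-- the noise symbols of a point of a box -/
noncomputable def noise : List (Nat × Nat) → List ℝ → List ℂ
  | [], _ => []
  | _ :: _, [] => []
  | b :: bs, t :: ts =>
      (((t - (b.1 : ℝ) / 2 ^ 40) / ((b.2 : ℝ) / 2 ^ 40) : ℝ) : ℂ) :: noise bs ts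

theorem q_noise_eq {b : Nat × Nat} {t : ℝ}
    (h : |t - (b.1 : ℝ) / 2 ^ 40| ≤ (b.2 : ℝ) / 2 ^ 40) :
    t = (b.1 : ℝ) / 2 ^ 40 + (b.2 : ℝ) / 2 ^ 40 *
      ((t - (b.1 : ℝ) / 2 ^ 40) / ((b.2 : ℝ) / 2 ^ 40)) := by
  rcases eq_or_ne ((b.2 : ℝ) / 2 ^ 40) 0 with h0 | h0
  · rw [h0] at h ⊢
    have := abs_nonpos_iff.1 h
    rw [zero_mul, add_zero]
    linarith
  · rw [mul_div_cancel₀ _ h0]
    ring

theorem q_noise_le {b : Nat × Nat} {t : ℝ}
    (h : |t - (b.1 : ℝ) / 2 ^ 40| ≤ (b.2 : ℝ) / 2 ^ 40) :
    ‖(((t - (b.1 : ℝ) / 2 ^ 40) / ((b.2 : ℝ) / 2 ^ 40) : ℝ) : ℂ)‖ ≤ 1 := by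
  rw [Complex.norm_real, Real.norm_eq_abs, abs_div,
    abs_of_nonneg (by positivity : (0 : ℝ) ≤ (b.2 : ℝ) / 2 ^ 40)]
  exact div_le_one_of_le₀ h (by positivity)

theorem q_noise_small {box : List (Nat × Nat)} {u : List ℝ} (h : InBox box u) :
    Small (noise box u) := by
  unfold InBox at h
  induction h with
  | nil =>
    intro z hz
    simp [noise] at hz
  | cons hbt _ ih =>
    intro z hz
    simp only [noise, List.mem_cons] at hz
    rcases hz with rfl | hz
    · exact q_noise_le hbt
    · exact ih z hz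

theorem q_noise_real {box : List (Nat × Nat)} {u : List ℝ} (h : InBox box u)
    (x : List ℂ) : RealL box.length (noise box u ++ x) := by
  unfold InBox at h
  induction h with
  | nil =>
    intro i hi
    exact absurd hi (Nat.not_lt_zero i)
  | cons hbt _ ih =>
    intro i hi
    cases i with
    | zero =>
      simp only [noise, List.cons_append, get]
      exact ofReal_im _
    | succ n =>
      simp only [noise, List.cons_append, get]
      exact ih n (by simpa using hi)

theorem q_dot_unitL (h : Nat) : ∀ (j : Nat) (ε : List ℂ),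
    dot (unitL j h) ε = (((h : ℝ) / 2 ^ 40 : ℝ) : ℂ) * get ε j
  | 0, [] => by simp [unitL, dot, get]
  | 0, e :: es => by
    simp only [unitL, dot, get, add_zero]
    congr 1
    simp [Z.val]
  | j + 1, [] => by simp [unitL, dot, get]
  | j + 1, e :: es => by
    simp only [unitL, dot, get, Z.val_zero, zero_mul, zero_add]
    exact q_dot_unitL h j es

theorem q_get_append (pre : List ℂ) (e : ℂ) (rest : List ℂ) :
    get (pre ++ e :: rest) pre.length = e := by
  induction pre with
  | nil => rfl
  | cons a l ih => exact ih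

theorem q_models_disc : ∀ (x pre : List ℂ),
    MemL (pre ++ x) (discs x.length pre.length) x
  | [], pre => List.Forall₂.nil
  | e :: es, pre => by
    have ih := q_models_disc es (pre ++ [e])
    rw [List.append_assoc, List.singleton_append, List.length_append, List.length_singleton] at ih
    refine List.Forall₂.cons ?_ ih
    intro _
    rw [q_dot_unitL, q_get_append, Z.val_zero]
    have : (((1099511627776 : Nat) : ℝ) / 2 ^ 40 : ℝ) = 1 := by norm_num
    rw [this]
    simp

theorem q_models (x : List ℂ) {box : List (Nat × Nat)} {u : List ℝ} (h : InBox box u) :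
    ∀ pre : List ℂ, MemL (pre ++ (noise box u ++ x)) (models box pre.length x.length)
      (u.map (fun t : ℝ => (t : ℂ)) ++ x) := by
  unfold InBox at h
  induction h with
  | nil =>
    intro pre
    exact q_models_disc x pre
  | @cons b t bs ts hbt _ ih =>
    intro pre
    have ih' := ih (pre ++ [(((t - (b.1 : ℝ) / 2 ^ 40) / ((b.2 : ℝ) / 2 ^ 40) : ℝ) : ℂ)])
    rw [List.append_assoc, List.singleton_append, List.length_append, List.length_singleton] at ih'
    refine List.Forall₂.cons ?_ ih'
    intro _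
    show ‖(t : ℂ) - ((⟨b.1, 0, 0, 0⟩ : Z).val + dot (unitL pre.length b.2) _)‖ ≤ _
    rw [q_dot_unitL]
    simp only [noise, List.cons_append]
    rw [q_get_append]
    have h1 : (⟨b.1, 0, 0, 0⟩ : Z).val = (((b.1 : ℝ) / 2 ^ 40 : ℝ) : ℂ) := by simp [Z.val]
    rw [h1, ← ofReal_mul, ← ofReal_add, ← q_noise_eq hbt, sub_self, norm_zero]
    positivity

end Pool.Agent.helper31.IA.Q41

namespace Pool.Agent.helper31.IC

open Complex
open Pool.Agent.helper31.IA (Z Op A Mem Small get RealL InBox)

def opsI : Ops where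
  α := A
  cst := A.const
  add := A.add
  sub := A.sub
  mul := A.mul
  scale := fun z x => A.scale z x
  neg := A.neg
  inv := A.inv
  exp := A.exp
  log := A.log
  ok := A.chk
  isPos := fun n x => A.isPos n x
  isLt := A.isLt
  bad := ⟨IA.Z.zero, [], 0, false⟩
  models := fun b n => IA.models b 0 n

/-- the laws; every field is one of the theorems of `IA` (`IA/Run.lean` for the variables) -/
theorem lawsI_mem : ∃ L : Laws opsI, L.Mem = Mem ∧ L.okBox = fun _ _ => true := by
  refine ⟨{
    Mem := Mem
    cst := fun {ε} _ z _ => IA.Mem.const ε z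
    add := fun {ε} _ {x y u v} hx hy _ => IA.Mem.add hx hy
    sub := fun {ε} _ {x y u v} hx hy _ => IA.Mem.sub hx hy
    mul := fun {ε} hε {x y u v} hx hy _ => IA.Mem.mul hε hx hy
    scale := fun {ε} hε z {x u} hx _ => IA.Mem.scale hε z hx
    neg := fun {ε} _ {x u} hx _ => IA.Mem.neg hx
    inv := fun {ε} hε {x u} hx h => IA.Mem.inv hε hx (IA.Q41.q_chk_ok h)
    exp := fun {ε} hε {x u} hx _ => IA.Mem.exp hε hx
    log := fun {ε} hε {x u} hx h => IA.Mem.log hε hx (IA.Q41.q_chk_ok h)
    isPos := fun {nr ε} hε hr {x u} hx h => IA.isPos_sound hε hr hx h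
    isLt := fun {ε} hε {x u B} hx h => IA.isLt_sound hε hx h
    bad := fun ε z hok => by simp [opsI] at hok
    okBox := fun _ _ => true
    models := ?_ }, rfl, rfl⟩
  intro box nd u x _ hu hx h1
  refine ⟨IA.Q41.noise box u ++ x, ?_, IA.Q41.q_noise_real hu x, ?_⟩
  · intro z hz
    rcases List.mem_append.1 hz with hz | hz
    · exact IA.Q41.q_noise_small hu z hz
    · exact h1 z hz
  · subst hx
    have h2 := IA.Q41.q_models x hu []
    rw [List.nil_append, List.length_nil] at h2
    exact h2

theorem cov_I {nr nd : Nat} {ops : List Op} {chk : List A → Bool}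
    (hchk : ∀ m, chk m = true → runG opsI nr ops m = true) (t : IA.T) (box : List (Nat × Nat))
    (hb : box.length = nr) (h : verifyG opsI (fun _ _ => true) nd chk t box = true) :
    IA.Cov nd ops box := by
  obtain ⟨L, -, hok⟩ := lawsI_mem
  refine cov_of_verifyG L hchk t box hb ?_
  rw [hok]
  exact h

theorem covD_I {nr nd : Nat} {progs : List (List Op)} {chks : List (List A → Bool)}
    (hchk : List.Forall₂ (fun (ops : List Op) (chk : List A → Bool) =>
      ∀ m, chk m = true → runG opsI nr ops m = true) progs chks) (t : TD)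
    (box : List (Nat × Nat)) (hb : box.length = nr)
    (h : verifyD opsI (fun _ _ => true) nd chks t box = true) : CovD nd progs box := by
  obtain ⟨L, -, hok⟩ := lawsI_mem
  refine covD_of_verifyD L hchk t box hb ?_
  rw [hok]
  exact h

end Pool.Agent.helper31.IC
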